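import Pool.Agent.Helper81.AD2.Goals

/-! Packet AD2-TLO: inserting one more point into the compatible orders. -/

namespace Pool.Agent.Helper48.AD2.TLO

open Pool.Agent.Helper81.AD2

variable {X : Type} {n : ℕ}

/-- `f` is compatible with `D`, `E` and the order `τ`. -/
def T (ψ : Fin n → X) (D E : X → X → Prop) (τ : Equiv.Perm (Fin n)) (f : X → ℕ) : Prop :=
  (∀ a b, D a b → f a < f b) ∧ (∀ a b, E a b → f a = f b) ∧
    ∀ i j, τ i < τ j → f (ψ i) < f (ψ j)

/-- The point `x0` can be inserted at the place `k`. -/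
def OK (ψ : Fin n → X) (x0 : X) (D E : X → X → Prop) (τ : Equiv.Perm (Fin n))
    (k : Fin (n + 1)) : Prop :=
  ∃ f : X → ℕ, T ψ D E τ f ∧ ∀ j, ((τ j).castSucc < k → f (ψ j) < f x0) ∧
    (k ≤ (τ j).castSucc → f x0 < f (ψ j))

/-- The point `x0` can be identified with `ψ j`. -/
def R (ψ : Fin n → X) (x0 : X) (D E : X → X → Prop) (τ : Equiv.Perm (Fin n)) (j : Fin n) : Prop :=
  ∃ f : X → ℕ, T ψ D E τ f ∧ f x0 = f (ψ j)

open Classical in
/-- The indicator of the class of `x0`. -/
noncomputable def ind (E : X → X → Prop) (x0 x : X) : ℕ := if Relation.EqvGen E x0 x then 1 else 0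

theorem ind_le (E : X → X → Prop) (x0 x : X) : ind E x0 x ≤ 1 := by
  unfold ind; split <;> omega

theorem ind_self (E : X → X → Prop) (x0 : X) : ind E x0 x0 = 1 := by
  unfold ind; rw [if_pos (Relation.EqvGen.refl _)]

theorem ind_of_not {E : X → X → Prop} {x0 x : X} (h : ¬ Relation.EqvGen E x0 x) :
    ind E x0 x = 0 := by
  unfold ind; rw [if_neg h]

theorem ind_eq {E : X → X → Prop} {x0 a b : X} (h : E a b) : ind E x0 a = ind E x0 b := by
  unfold ind
  have : Relation.EqvGen E x0 a ↔ Relation.EqvGen E x0 b :=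
    ⟨fun h' => h'.trans _ _ _ (Relation.EqvGen.rel _ _ h),
      fun h' => h'.trans _ _ _ ((Relation.EqvGen.rel _ _ h).symm _ _)⟩
  by_cases h' : Relation.EqvGen E x0 a
  · rw [if_pos h', if_pos (this.1 h')]
  · rw [if_neg h', if_neg (fun h'' => h' (this.2 h''))]

variable {ψ : Fin n → X} {x0 : X} {D E : X → X → Prop} {τ : Equiv.Perm (Fin n)}

theorem T_up {f : X → ℕ} (h : T ψ D E τ f) : T ψ D E τ fun x => 2 * f x + ind E x0 x := by
  refine ⟨fun a b hab => ?_, fun a b hab => ?_, fun i j hij => ?_⟩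
  · have h1 := h.1 a b hab
    have h2 := ind_le E x0 a
    show 2 * f a + ind E x0 a < 2 * f b + ind E x0 b
    omega
  · show 2 * f a + ind E x0 a = 2 * f b + ind E x0 b
    rw [h.2.1 a b hab, ind_eq hab]
  · have h1 := h.2.2 i j hij
    have h2 := ind_le E x0 (ψ i)
    show 2 * f (ψ i) + ind E x0 (ψ i) < 2 * f (ψ j) + ind E x0 (ψ j)
    omega

theorem T_dn {f : X → ℕ} (h : T ψ D E τ f) : T ψ D E τ fun x => 2 * f x + (1 - ind E x0 x) := by
  refine ⟨fun a b hab => ?_, fun a b hab => ?_, fun i j hij => ?_⟩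
  · have h1 := h.1 a b hab
    show 2 * f a + (1 - ind E x0 a) < 2 * f b + (1 - ind E x0 b)
    omega
  · show 2 * f a + (1 - ind E x0 a) = 2 * f b + (1 - ind E x0 b)
    rw [h.2.1 a b hab, ind_eq hab]
  · have h1 := h.2.2 i j hij
    show 2 * f (ψ i) + (1 - ind E x0 (ψ i)) < 2 * f (ψ j) + (1 - ind E x0 (ψ j))
    omega

theorem T_le {f : X → ℕ} (h : T ψ D E τ f) {i j : Fin n} (hij : τ i ≤ τ j) :
    f (ψ i) ≤ f (ψ j) := by
  rcases hij.lt_or_eq with h1 | h1
  · exact (h.2.2 i j h1).le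
  · rw [τ.injective h1]

/-- The point `x0` can be inserted somewhere. -/
theorem exists_OK (hx : ∀ i, ¬ Relation.EqvGen E x0 (ψ i)) (hT : ∃ f, T ψ D E τ f) :
    ∃ k, OK ψ x0 D E τ k := by
  classical
  obtain ⟨f, hf⟩ := hT
  let K : Finset (Fin (n + 1)) :=
    Finset.univ.filter fun k => ∀ j, f (ψ j) ≤ f x0 → (τ j).castSucc < k
  have hK : K.Nonempty := ⟨Fin.last n, by
    rw [Finset.mem_filter]
    exact ⟨Finset.mem_univ _, fun j _ => Fin.castSucc_lt_last _⟩⟩
  obtain ⟨k, hk, hmin⟩ := K.exists_min_image id hK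
  rw [Finset.mem_filter] at hk
  refine ⟨k, _, T_up (x0 := x0) hf, fun j => ⟨fun hj => ?_, fun hj => ?_⟩⟩
  · show 2 * f (ψ j) + ind E x0 (ψ j) < 2 * f x0 + ind E x0 x0
    rw [ind_of_not (hx j), ind_self]
    by_contra hcon
    have h1 : f x0 < f (ψ j) := by omega
    have h2 : (τ j).castSucc ∈ K := by
      rw [Finset.mem_filter]
      refine ⟨Finset.mem_univ _, fun i hi => ?_⟩
      rw [Fin.castSucc_lt_castSucc_iff]
      by_contra hcon2
      have := T_le hf (not_lt.1 hcon2)
      omega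
    exact absurd hj (not_lt.2 (hmin _ h2))
  · show 2 * f x0 + ind E x0 x0 < 2 * f (ψ j) + ind E x0 (ψ j)
    rw [ind_of_not (hx j), ind_self]
    by_contra hcon
    have h1 : f (ψ j) ≤ f x0 := by omega
    exact absurd (hk.2 j h1) (not_lt.2 hj)

theorem R_up (hx : ∀ i, ¬ Relation.EqvGen E x0 (ψ i)) {j : Fin n} (h : R ψ x0 D E τ j) :
    OK ψ x0 D E τ (τ j).succ := by
  obtain ⟨f, hf, h0⟩ := h
  refine ⟨_, T_up (x0 := x0) hf, fun i => ⟨fun hi => ?_, fun hi => ?_⟩⟩
  · show 2 * f (ψ i) + ind E x0 (ψ i) < 2 * f x0 + ind E x0 x0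
    rw [ind_of_not (hx i), ind_self]
    have h1 : τ i ≤ τ j := by
      rw [Fin.lt_def] at hi
      rw [Fin.le_def]
      simp only [Fin.val_castSucc, Fin.val_succ] at hi
      omega
    have := T_le hf h1
    omega
  · show 2 * f x0 + ind E x0 x0 < 2 * f (ψ i) + ind E x0 (ψ i)
    rw [ind_of_not (hx i), ind_self]
    have h1 : τ j < τ i := by
      rw [Fin.le_def] at hi
      rw [Fin.lt_def]
      simp only [Fin.val_castSucc, Fin.val_succ] at hi
      omega
    have := hf.2.2 _ _ h1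
    omega

theorem R_dn (hx : ∀ i, ¬ Relation.EqvGen E x0 (ψ i)) {j : Fin n} (h : R ψ x0 D E τ j) :
    OK ψ x0 D E τ (τ j).castSucc := by
  obtain ⟨f, hf, h0⟩ := h
  refine ⟨_, T_dn (x0 := x0) hf, fun i => ⟨fun hi => ?_, fun hi => ?_⟩⟩
  · show 2 * f (ψ i) + (1 - ind E x0 (ψ i)) < 2 * f x0 + (1 - ind E x0 x0)
    rw [ind_of_not (hx i), ind_self]
    rw [Fin.castSucc_lt_castSucc_iff] at hi
    have := hf.2.2 _ _ hi
    omega
  · show 2 * f x0 + (1 - ind E x0 x0) < 2 * f (ψ i) + (1 - ind E x0 (ψ i))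
    rw [ind_of_not (hx i), ind_self]
    rw [Fin.castSucc_le_castSucc_iff] at hi
    have := T_le hf hi
    omega

theorem OK_R {k1 k2 : Fin (n + 1)} (h1 : OK ψ x0 D E τ k1) (h2 : OK ψ x0 D E τ k2) {j : Fin n}
    (hj1 : k1 ≤ (τ j).castSucc) (hj2 : (τ j).succ ≤ k2) : R ψ x0 D E τ j := by
  obtain ⟨f, hf, hf'⟩ := h1
  obtain ⟨g, hg, hg'⟩ := h2
  have hfj := (hf' j).2 hj1
  have hgj := (hg' j).1 (lt_of_lt_of_le (Fin.castSucc_lt_succ) hj2)
  obtain ⟨β, hβ⟩ := Nat.exists_eq_add_of_lt hfj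
  obtain ⟨α, hα⟩ := Nat.exists_eq_add_of_lt hgj
  have key : ∀ a b, f a < f b → g a < g b →
      (α + 1) * f a + (β + 1) * g a < (α + 1) * f b + (β + 1) * g b := by
    intro a b hab hab'
    exact add_lt_add (Nat.mul_lt_mul_of_pos_left hab (Nat.succ_pos _))
      (Nat.mul_lt_mul_of_pos_left hab' (Nat.succ_pos _))
  refine ⟨fun x => (α + 1) * f x + (β + 1) * g x, ⟨fun a b hab => ?_, fun a b hab => ?_,
    fun i j hij => ?_⟩, ?_⟩
  · exact key a b (hf.1 a b hab) (hg.1 a b hab)
  · show (α + 1) * f a + (β + 1) * g a = (α + 1) * f b + (β + 1) * g b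
    rw [hf.2.1 a b hab, hg.2.1 a b hab]
  · exact key _ _ (hf.2.2 i j hij) (hg.2.2 i j hij)
  · show (α + 1) * f x0 + (β + 1) * g x0 = (α + 1) * f (ψ j) + (β + 1) * g (ψ j)
    rw [hβ, hα]
    ring

open Classical in
/-- The count for a fixed `τ`. -/
theorem count (hx : ∀ i, ¬ Relation.EqvGen E x0 (ψ i)) :
    (Finset.univ.filter fun k => OK ψ x0 D E τ k).card =
      (if ∃ f, T ψ D E τ f then 1 else 0) + (Finset.univ.filter fun j => R ψ x0 D E τ j).card := by
  by_cases hT : ∃ f, T ψ D E τ f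
  · rw [if_pos hT]
    have hne : (Finset.univ.filter fun k => OK ψ x0 D E τ k).Nonempty := by
      obtain ⟨k, hk⟩ := exists_OK hx hT
      exact ⟨k, by rw [Finset.mem_filter]; exact ⟨Finset.mem_univ _, hk⟩⟩
    obtain ⟨m, hm, hmin⟩ := Finset.exists_min_image _ id hne
    rw [← Finset.card_erase_add_one hm, add_comm]
    congr 1
    symm
    apply Finset.card_bij (fun j _ => (τ j).succ)
    · intro j hj
      rw [Finset.mem_filter] at hj
      rw [Finset.mem_erase, Finset.mem_filter]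
      refine ⟨?_, Finset.mem_univ _, R_up hx hj.2⟩
      rintro rfl
      have := hmin (τ j).castSucc (by
        rw [Finset.mem_filter]; exact ⟨Finset.mem_univ _, R_dn hx hj.2⟩)
      exact absurd (Fin.castSucc_lt_succ (i := τ j)) (not_lt.2 this)
    · intro i _ j _ hij
      exact τ.injective (Fin.succ_injective _ hij)
    · intro k hk
      rw [Finset.mem_erase] at hk
      have hlt : m < k := lt_of_le_of_ne (hmin k hk.2) (Ne.symm hk.1)
      have hk0 : k ≠ 0 := by
        rintro rfl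
        exact absurd hlt (Fin.not_lt_zero _)
      obtain ⟨i, rfl⟩ := Fin.exists_succ_eq.2 hk0
      refine ⟨τ.symm i, ?_, by rw [Equiv.apply_symm_apply]⟩
      rw [Finset.mem_filter] at hk hm ⊢
      refine ⟨Finset.mem_univ _, OK_R hm.2 hk.2.2 ?_ ?_⟩
      · rw [Equiv.apply_symm_apply]
        rw [Fin.le_def]
        rw [Fin.lt_def] at hlt
        simp only [Fin.val_castSucc, Fin.val_succ] at hlt ⊢
        omega
      · rw [Equiv.apply_symm_apply]
  · rw [if_neg hT, zero_add]
    have h1 : (Finset.univ.filter fun k => OK ψ x0 D E τ k) = ∅ := by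
      rw [Finset.filter_eq_empty_iff]
      rintro k _ ⟨f, hf, _⟩
      exact hT ⟨f, hf⟩
    have h2 : (Finset.univ.filter fun j => R ψ x0 D E τ j) = ∅ := by
      rw [Finset.filter_eq_empty_iff]
      rintro k _ ⟨f, hf, _⟩
      exact hT ⟨f, hf⟩
    rw [h1, h2, Finset.card_empty, Finset.card_empty]

/-! ### Decomposition of the permutations -/

/-- Insert `0` at the place `k`. -/
def mk (p : Fin (n + 1) × Equiv.Perm (Fin n)) : Equiv.Perm (Fin (n + 1)) :=
  (finSuccEquiv n).trans ((Equiv.optionCongr p.2).trans (finSuccEquiv' p.1).symm)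

theorem mk_zero (p : Fin (n + 1) × Equiv.Perm (Fin n)) : mk p 0 = p.1 := by
  unfold mk
  simp

theorem mk_succ (p : Fin (n + 1) × Equiv.Perm (Fin n)) (i : Fin n) :
    mk p i.succ = p.1.succAbove (p.2 i) := by
  unfold mk
  simp

theorem mk_injective : Function.Injective (mk (n := n)) := by
  rintro ⟨k, τ⟩ ⟨k', τ'⟩ h
  have h0 : k = k' := by
    have := congrArg (fun σ : Equiv.Perm (Fin (n + 1)) => σ 0) h
    simpa [mk_zero] using this
  subst h0
  have h1 : τ = τ' := by
    ext i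
    have := congrArg (fun σ : Equiv.Perm (Fin (n + 1)) => σ i.succ) h
    simp only [mk_succ] at this
    rw [Fin.succAbove_right_injective this]
  rw [h1]

theorem mk_bijective : Function.Bijective (mk (n := n)) := by
  rw [Fintype.bijective_iff_injective_and_card]
  refine ⟨mk_injective, ?_⟩
  rw [Fintype.card_prod, Fintype.card_perm, Fintype.card_perm, Fintype.card_fin, Fintype.card_fin,
    Nat.factorial_succ]

theorem mk_iff (φ : Fin (n + 1) → X) (D E : X → X → Prop) (k : Fin (n + 1))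
    (τ : Equiv.Perm (Fin n)) :
    (∃ f : X → ℕ, (∀ a b, D a b → f a < f b) ∧ (∀ a b, E a b → f a = f b) ∧
      ∀ i j, mk (k, τ) i < mk (k, τ) j → f (φ i) < f (φ j)) ↔
    OK (fun i : Fin n => φ i.succ) (φ 0) D E τ k := by
  constructor
  · rintro ⟨f, h1, h2, h3⟩
    refine ⟨f, ⟨h1, h2, fun i j hij => ?_⟩, fun j => ⟨fun hj => ?_, fun hj => ?_⟩⟩
    · apply h3
      rw [mk_succ, mk_succ]
      exact (Fin.strictMono_succAbove k) hij
    · apply h3
      rw [mk_succ, mk_zero]
      show k.succAbove (τ j) < k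
      rw [Fin.succAbove_of_castSucc_lt _ _ hj]
      exact hj
    · apply h3
      rw [mk_succ, mk_zero]
      show k < k.succAbove (τ j)
      rw [Fin.succAbove_of_le_castSucc _ _ hj]
      exact lt_of_le_of_lt hj Fin.castSucc_lt_succ
  · rintro ⟨f, ⟨h1, h2, h3⟩, h4⟩
    refine ⟨f, h1, h2, fun i j hij => ?_⟩
    induction i using Fin.cases with
    | zero =>
      induction j using Fin.cases with
      | zero => exact absurd hij (lt_irrefl _)
      | succ j =>
        rw [mk_zero, mk_succ] at hij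
        change k < k.succAbove (τ j) at hij
        apply (h4 j).2
        by_contra hcon
        rw [not_le] at hcon
        rw [Fin.succAbove_of_castSucc_lt _ _ hcon] at hij
        exact absurd hij (not_lt.2 hcon.le)
    | succ i =>
      induction j using Fin.cases with
      | zero =>
        rw [mk_zero, mk_succ] at hij
        change k.succAbove (τ i) < k at hij
        apply (h4 i).1
        by_contra hcon
        rw [not_lt] at hcon
        rw [Fin.succAbove_of_le_castSucc _ _ hcon] at hij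
        exact absurd hij (not_lt.2 (hcon.trans Fin.castSucc_lt_succ.le))
      | succ j =>
        rw [mk_succ, mk_succ] at hij
        exact h3 i j ((Fin.strictMono_succAbove k).lt_iff_lt.1 hij)

open Classical in
theorem t : S_TLO := by
  intro X _ n φ D E hx
  have hL : No φ D E = ∑ τ : Equiv.Perm (Fin n),
      (Finset.univ.filter fun k => OK (fun i : Fin n => φ i.succ) (φ 0) D E τ k).card := by
    unfold No
    rw [Nat.card_eq_fintype_card, Fintype.card_subtype, Finset.card_filter,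
      ← (Equiv.ofBijective _ (mk_bijective (n := n))).sum_comp, Fintype.sum_prod_type_right]
    refine Finset.sum_congr rfl fun τ _ => ?_
    rw [Finset.card_filter]
    refine Finset.sum_congr rfl fun k _ => ?_
    refine if_congr ?_ rfl rfl
    exact mk_iff φ D E k τ
  have h1 : No (fun i : Fin n => φ i.succ) D E =
      ∑ τ : Equiv.Perm (Fin n), if ∃ f, T (fun i : Fin n => φ i.succ) D E τ f then 1 else 0 := by
    unfold No
    rw [Nat.card_eq_fintype_card, Fintype.card_subtype, Finset.card_filter]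
    rfl
  have h2 : ∀ j : Fin n, No (fun i : Fin n => φ i.succ) D
      (fun a b => E a b ∨ (a = φ 0 ∧ b = φ j.succ)) =
      ∑ τ : Equiv.Perm (Fin n),
        if R (fun i : Fin n => φ i.succ) (φ 0) D E τ j then 1 else 0 := by
    intro j
    unfold No
    rw [Nat.card_eq_fintype_card, Fintype.card_subtype, Finset.card_filter]
    refine Finset.sum_congr rfl fun τ _ => if_congr ?_ rfl rfl
    constructor
    · rintro ⟨f, ha, hb, hc⟩
      exact ⟨f, ⟨ha, fun a b hab => hb a b (Or.inl hab), hc⟩, hb _ _ (Or.inr ⟨rfl, rfl⟩)⟩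
    · rintro ⟨f, ⟨ha, hb, hc⟩, h0⟩
      refine ⟨f, ha, fun a b hab => ?_, hc⟩
      rcases hab with hab | ⟨rfl, rfl⟩
      · exact hb a b hab
      · exact h0
  rw [hL, h1, Finset.sum_congr rfl fun j _ => h2 j, Finset.sum_comm, ← Finset.sum_add_distrib]
  refine Finset.sum_congr rfl fun τ _ => ?_
  rw [count hx, Finset.card_filter]

end Pool.Agent.Helper48.AD2.TLO
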